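import Mathlib

/-!
# Strong approximation for `GL₂` over a principal ideal domain

`R` is a principal ideal domain with field of fractions `K`: `GL₂(𝔸_f) = GL₂(K) · GL₂(R̂)`.
-/

set_option autoImplicit false

namespace Pool.Agent.T2H23.LL

open IsDedekindDomain HeightOneSpectrum WithZero

variable {R K : Type*} [CommRing R] [IsDedekindDomain R] [Field K] [Algebra R K] [IsFractionRing R K]

theorem coe_sub' (v : HeightOneSpectrum R) (x y : K) :
    ((x - y : K) : v.adicCompletion K) = (x : v.adicCompletion K) - (y : v.adicCompletion K) :=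
  map_sub (algebraMap K (v.adicCompletion K)) x y

theorem coe_mul' (v : HeightOneSpectrum R) (x y : K) :
    ((x * y : K) : v.adicCompletion K) = (x : v.adicCompletion K) * (y : v.adicCompletion K) :=
  map_mul (algebraMap K (v.adicCompletion K)) x y

theorem coe_ne_zero' (v : HeightOneSpectrum R) {x : K} (hx : x ≠ 0) :
    (x : v.adicCompletion K) ≠ 0 := fun h =>
  hx ((algebraMap K (v.adicCompletion K)).injective (h.trans (map_zero _).symm))

theorem isOpen_lt (v : HeightOneSpectrum R) (n : ℤ) :
    IsOpen {y : v.adicCompletion K | Valued.v y < exp n} := by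
  obtain ⟨c, hc⟩ := valuedAdicCompletion_surjective K v (exp n)
  have h := Valued.isOpen_ball (R := v.adicCompletion K) ((Valued.v (R := v.adicCompletion K)).restrict c)
  convert h using 2
  ext y
  rw [Valuation.restrict_lt_iff, hc]

theorem exists_sub_le_local (v : HeightOneSpectrum R) (x : v.adicCompletion K)
    (hx : Valued.v x ≤ 1) (n : ℕ) :
    ∃ r : R, Valued.v (x - (algebraMap R K r : v.adicCompletion K)) ≤ exp (-(n : ℤ)) := by
  have hγ : (exp (-(n : ℤ)) : ℤᵐ⁰) ≠ 0 := exp_ne_zero
  have hopen : IsOpen {y : v.adicCompletion K | Valued.v (x - y) < exp (-(n : ℤ))} :=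
    (isOpen_lt v (-(n : ℤ))).preimage (continuous_const.sub continuous_id)
  obtain ⟨k, hk⟩ := (denseRange_algebraMap (R := R) K v).exists_mem_open hopen
    ⟨x, by simp [exp_pos]⟩
  have hk' : Valued.v (x - (k : v.adicCompletion K)) < exp (-(n : ℤ)) := hk
  have hk1 : v.valuation K k ≤ 1 := by
    rw [← valuedAdicCompletion_eq_valuation' v k]
    have e : (k : v.adicCompletion K) = x - (x - (k : v.adicCompletion K)) := by ring
    rw [e]
    refine (Valuation.map_sub _ _ _).trans (max_le hx (hk'.le.trans ?_))
    rw [← exp_zero, exp_le_exp]; omega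
  obtain ⟨a, ha⟩ := exists_valuation_sub_lt_of_integer v hk1 (Units.mk0 _ hγ)
  refine ⟨a, ?_⟩
  have e : x - (algebraMap R K a : v.adicCompletion K) =
      (x - (k : v.adicCompletion K)) - ((algebraMap R K a - k : K) : v.adicCompletion K) := by
    rw [coe_sub']; ring
  rw [e]
  refine (Valuation.map_sub _ _ _).trans (max_le hk'.le ?_)
  rw [valuedAdicCompletion_eq_valuation' v]
  exact ha.le

/-- Clearing denominators in a finite adele. -/
theorem exists_mul_integral (a : FiniteAdeleRing R K) :
    ∃ d : R, d ≠ 0 ∧ ∀ v, Valued.v (a v * (algebraMap R K d : v.adicCompletion K)) ≤ 1 := by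
  classical
  have hfin : {v : HeightOneSpectrum R | ¬ a v ∈ v.adicCompletionIntegers K}.Finite := a.2
  choose d hd0 hd using fun v : HeightOneSpectrum R =>
    adicCompletion.mul_nonZeroDivisor_mem_adicCompletionIntegers v (a v)
  refine ⟨∏ v ∈ hfin.toFinset, d v, Finset.prod_ne_zero_iff.2 fun v _ =>
    nonZeroDivisors.ne_zero (hd0 v), fun v => ?_⟩
  have hle : ∀ r : R, Valued.v ((algebraMap R K r : K) : v.adicCompletion K) ≤ 1 := fun r =>
    coe_algebraMap_mem R K v r
  by_cases hv : v ∈ hfin.toFinset
  · rw [← Finset.mul_prod_erase _ _ hv, map_mul (algebraMap R K), coe_mul', ← mul_assoc, map_mul]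
    exact mul_le_one' (hd v) (hle _)
  · have : a v ∈ v.adicCompletionIntegers K := by
      by_contra h
      exact hv (hfin.mem_toFinset.2 h)
    rw [map_mul]
    exact mul_le_one' this (hle _)

/-- `𝔸_f = K + R̂`. -/
theorem exists_sub_integral (a : FiniteAdeleRing R K) :
    ∃ k : K, ∀ v, Valued.v (a v - (k : v.adicCompletion K)) ≤ 1 := by
  classical
  obtain ⟨d, hd0, hd⟩ := exists_mul_integral a
  have hspan : Ideal.span {d} ≠ ⊥ := by simpa using hd0
  have hfin := Ideal.finite_factors hspan
  let e : HeightOneSpectrum R → ℕ := fun v => (Associates.mk v.asIdeal).count (Associates.mk (Ideal.span {d})).factors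
  choose r hr using fun v : HeightOneSpectrum R => exists_sub_le_local v _ (hd v) (e v)
  obtain ⟨y, hy⟩ := IsDedekindDomain.exists_forall_sub_mem_ideal (s := hfin.toFinset)
    (fun v : HeightOneSpectrum R => v.asIdeal) e (fun v _ => v.prime)
    (fun v _ w _ hvw h => hvw (HeightOneSpectrum.ext h)) (fun v => r v.1)
  have hdK : algebraMap R K d ≠ 0 := by
    rwa [Ne, IsFractionRing.to_map_eq_zero_iff]
  refine ⟨algebraMap R K y / algebraMap R K d, fun v => ?_⟩
  have hdv : (algebraMap R K d : v.adicCompletion K) ≠ 0 := coe_ne_zero' v hdK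
  have key : Valued.v (a v * (algebraMap R K d : v.adicCompletion K) -
      (algebraMap R K y : v.adicCompletion K)) ≤ Valued.v (algebraMap R K d : v.adicCompletion K) := by
    rw [valuedAdicCompletion_eq_valuation' v, valuation_of_algebraMap, intValuation_if_neg v hd0]
    by_cases hv : v ∈ hfin.toFinset
    · have h1 := hy v hv
      have h2 : Valued.v ((algebraMap R K (y - r v) : K) : v.adicCompletion K) ≤ exp (-(e v : ℤ)) := by
        rw [valuedAdicCompletion_eq_valuation' v, valuation_of_algebraMap,
          intValuation_le_pow_iff_mem]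
        exact h1
      have e1 : a v * (algebraMap R K d : v.adicCompletion K) - (algebraMap R K y : v.adicCompletion K) =
        (a v * (algebraMap R K d : v.adicCompletion K) - (algebraMap R K (r v) : v.adicCompletion K)) -
          ((algebraMap R K (y - r v) : K) : v.adicCompletion K) := by
        rw [map_sub, coe_sub']; ring
      rw [e1]
      exact (Valuation.map_sub _ _ _).trans (max_le (hr v) h2)
    · have hv' : ¬ v.asIdeal ∣ Ideal.span {d} := fun h => hv (hfin.mem_toFinset.2 h)
      have h3 : e v = 0 := by
        by_contra hne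
        exact hv' ((Associates.count_ne_zero_iff_dvd (by simpa using hspan) v.irreducible).1 hne)
      have h4 : ((Associates.mk v.asIdeal).count (Associates.mk (Ideal.span {d})).factors : ℤ) = 0 := by
        exact_mod_cast h3
      rw [h4]
      refine (Valuation.map_sub _ _ _).trans (max_le (by simpa using hd v) ?_)
      simpa using v.valuation_le_one (K := K) y
  have e2 : a v - ((algebraMap R K y / algebraMap R K d : K) : v.adicCompletion K) =
      (a v * (algebraMap R K d : v.adicCompletion K) - (algebraMap R K y : v.adicCompletion K)) *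
        (algebraMap R K d : v.adicCompletion K)⁻¹ := by
    have : ((algebraMap R K y / algebraMap R K d : K) : v.adicCompletion K) =
        (algebraMap R K y : v.adicCompletion K) / (algebraMap R K d : v.adicCompletion K) :=
      map_div₀ (algebraMap K (v.adicCompletion K)) _ _
    rw [this]
    field_simp
  rw [e2, map_mul, map_inv₀]
  exact (mul_le_mul_left key _).trans (by
    rw [mul_inv_cancel₀]
    exact (Valuation.ne_zero_iff _).2 hdv)

theorem valuation_generator (v : HeightOneSpectrum R) {p : R} (hp : v.asIdeal = Ideal.span {p}) :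
    v.valuation K (algebraMap R K p) = exp (-1 : ℤ) := by
  have hp0 : p ≠ 0 := by
    rintro rfl
    exact v.ne_bot (by simpa using hp)
  rw [valuation_of_algebraMap, intValuation_singleton v hp0 hp]

theorem valuation_generator_of_ne (v w : HeightOneSpectrum R) (h : v ≠ w) {p : R}
    (hp : v.asIdeal = Ideal.span {p}) : w.valuation K (algebraMap R K p) = 1 := by
  rw [valuation_of_algebraMap, intValuation_eq_one_iff]
  intro hmem
  have hle : v.asIdeal ≤ w.asIdeal := by
    rw [hp, Ideal.span_singleton_le_iff_mem]
    exact hmem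
  exact h (HeightOneSpectrum.ext ((v.isMaximal.eq_of_le w.isPrime.ne_top hle)))

/-- `𝔸_f^× = K^× R̂^×`. -/
theorem exists_idele (hR : IsPrincipalIdealRing R) (a : FiniteAdeleRing R K) (h0 : ∀ v, a v ≠ 0)
    (h1 : ∀ᶠ v in Filter.cofinite, Valued.v (a v) = 1) :
    ∃ k : K, k ≠ 0 ∧ ∀ v, Valued.v (a v) = Valued.v (k : v.adicCompletion K) := by
  classical
  have hfin : {v : HeightOneSpectrum R | ¬ Valued.v (a v) = 1}.Finite := h1
  choose p hp using fun v : HeightOneSpectrum R =>
    (hR.principal v.asIdeal).principal
  have hp' : ∀ v : HeightOneSpectrum R, v.asIdeal = Ideal.span {p v} := hp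
  have hpK : ∀ v, algebraMap R K (p v) ≠ 0 := fun v h => by
    have := valuation_generator (K := K) v (hp' v)
    rw [h, map_zero] at this
    exact exp_ne_zero this.symm
  refine ⟨∏ v ∈ hfin.toFinset, (algebraMap R K (p v)) ^ (-(log (Valued.v (a v)))),
    Finset.prod_ne_zero_iff.2 fun v _ => zpow_ne_zero _ (hpK v), fun w => ?_⟩
  rw [valuedAdicCompletion_eq_valuation' w, map_prod]
  have hne : ∀ v ∈ hfin.toFinset, v ≠ w →
      w.valuation K ((algebraMap R K (p v)) ^ (-(log (Valued.v (a v))))) = 1 := by
    intro v _ hvw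
    rw [map_zpow₀, valuation_generator_of_ne v w hvw (hp' v), one_zpow]
  by_cases hw : w ∈ hfin.toFinset
  · rw [Finset.prod_eq_single_of_mem w hw hne, map_zpow₀, valuation_generator w (hp' w),
      ← exp_zsmul]
    simp only [smul_eq_mul, mul_one, mul_neg, neg_neg]
    rw [exp_log]
    exact (Valuation.ne_zero_iff _).2 (h0 w)
  · rw [Finset.prod_eq_one fun v hv => hne v hv (fun h => hw (h ▸ hv))]
    by_contra h
    exact hw (hfin.mem_toFinset.2 h)

end Pool.Agent.T2H23.LL
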